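import Pool.Agent.Lib.MP_2cc37a_an.Final

/-!
For prevalent `g` in `Lip(𝕊¹)` all oblique occupation measures of the Weierstrass function `W_g`
are absolutely continuous.
-/

namespace Pool.Agent.Results.MP_2cc37a_an.ObliquePrevalence

open MeasureTheory Pool.Agent.Lib.MP_2cc37a_an

/-- For every integer `b ≥ 2` and every `0 < α < 1`, the set of `g ∈ Lip(𝕊¹)` such that the
`θ`-oblique occupation measure of `W_g` is absolutely continuous for every `θ` is prevalent. -/
theorem result (b : ℕ) (hb : 2 ≤ b) (α : ℝ) (hα : 0 < α) (hα1 : α < 1) :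
    IsPrevalent {g : LipS1 | ∀ θ : ℝ, obliqueMeasure α b θ g ≪ (volume : Measure ℝ)} :=
  main b hb α hα hα1

end Pool.Agent.Results.MP_2cc37a_an.ObliquePrevalence
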